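import Pool.Agent.Q24.CD.SumZ

set_option autoImplicit false

/-!
# Project CD: `S_PosZ` (helper24)
-/

open Filter Topology MeasureTheory
open scoped ComplexConjugate

namespace Pool.Agent.Q24.CD

open Pool.Agent.Y23 Pool.Agent.Q240.CD

attribute [local instance] Pool.Agent.Y23.Z.ZL

/-- on the critical line the terms of the form are squares -/
lemma GG_crit (hRH : ∀ ρ : Zt, (ρ : ℂ).re = 1 / 2) (f : ℝ → ℂ) (ρ : Zt) :
    (GG f f ((ρ : ℂ) - 1 / 2)).re = ‖TT f ((ρ : ℂ) - 1 / 2)‖ ^ 2 := by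
  have e : (ρ : ℂ) - 1 / 2 = (⟨0, (ρ : ℂ).im⟩ : ℂ) := by
    apply Complex.ext
    · have := hRH ρ
      simp [this]
    · simp
  have e2 : (⟨0, (ρ : ℂ).im⟩ : ℂ) = (((ρ : ℂ).im : ℝ) : ℂ) * Complex.I := by
    apply Complex.ext <;> simp
  rw [e, GG_line, Complex.ofReal_re, ← e2]

lemma QQ_crit (hRH : ∀ ρ : Zt, (ρ : ℂ).re = 1 / 2) (f : ℝ → ℂ) :
    QQ f = ∑' ρ : Zt, (mu ρ : ℝ) * ‖TT f ((ρ : ℂ) - 1 / 2)‖ ^ 2 := by
  unfold QQ
  exact tsum_congr fun ρ => by rw [GG_crit hRH]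

lemma QQ_crit_nonneg (hRH : ∀ ρ : Zt, (ρ : ℂ).re = 1 / 2) (f : ℝ → ℂ) : 0 ≤ QQ f := by
  rw [QQ_crit hRH]
  exact tsum_nonneg fun ρ => by positivity

/-- the transform of a translate -/
lemma TT_shift (f : ℝ → ℂ) (τ : ℝ) (w : ℂ) : TT (fun x => f (x - τ)) w = Complex.exp (w * τ) * TT f w := by
  unfold TT
  rw [← integral_const_mul, ← integral_sub_right_eq_self (fun x : ℝ => Complex.exp (w * τ) * (f x * Complex.exp (w * x))) τ]
  refine integral_congr_ae (Eventually.of_forall fun x => ?_)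
  simp only
  rw [mul_left_comm, ← Complex.exp_add]
  congr 2
  push_cast
  ring

lemma Hn_shift {a : ℝ} {ν : ℕ∞} {f : ℝ → ℂ} (hf : G.F.Hn a ν f) {τ : ℝ} (hτ : |τ| ≤ 1) :
    G.F.Hn (a + 1) ⊤ (fun x => f (x - τ)) := by
  refine ⟨⟨?_, fun x hx => hf.1.2 _ ?_⟩, ?_, fun k hk => absurd hk (not_lt.2 le_top)⟩
  · exact hf.1.1.comp_measurePreserving (measurePreserving_sub_right volume τ)
  · have := abs_sub_abs_le_abs_sub x τ
    linarith
  · refine hf.2.1.congr (Eventually.of_forall fun v => ?_)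
    simp only
    rw [TT_shift, norm_mul, Complex.norm_exp]
    have : ((v : ℂ) * Complex.I * (τ : ℂ)).re = 0 := by simp
    rw [this, Real.exp_zero, one_mul]

theorem posZ : S_PosZ := by
  intro hRH a ν f ha hf hQ
  have ha1 : 0 < a + 1 := by linarith
  -- all terms vanish
  have hdom : Dom f := ((Hd_iff ha f).1 hf.hd).2
  have hnn : ∀ ρ : Zt, 0 ≤ (mu ρ : ℝ) * ‖TT f ((ρ : ℂ) - 1 / 2)‖ ^ 2 := fun ρ => by positivity
  have h0 : ∑' ρ : Zt, (mu ρ : ℝ) * ‖TT f ((ρ : ℂ) - 1 / 2)‖ ^ 2 = 0 := by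
    rw [← QQ_crit hRH]
    exact le_antisymm hQ (QQ_crit_nonneg hRH f)
  have hz : ∀ ρ : Zt, TT f ((ρ : ℂ) - 1 / 2) = 0 := by
    intro ρ
    have hs : HasSum (fun ρ : Zt => (mu ρ : ℝ) * ‖TT f ((ρ : ℂ) - 1 / 2)‖ ^ 2) 0 := by
      have h1 := Summable.hasSum (f := fun ρ : Zt => (mu ρ : ℝ) * ‖TT f ((ρ : ℂ) - 1 / 2)‖ ^ 2) hdom
      rwa [h0] at h1
    have h1 := (hasSum_zero_iff_of_nonneg hnn).1 hs
    have h2 := congrFun h1 ρ
    simp only [Pi.zero_apply, mul_eq_zero] at h2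
    have h3 : (mu ρ : ℝ) ≠ 0 := by
      have := mu_pos ρ.2
      have h4 : mu (ρ : ℂ) ≠ 0 := by omega
      exact_mod_cast h4
    have h4 := h2.resolve_left h3
    exact norm_eq_zero.1 (pow_eq_zero_iff two_ne_zero |>.1 h4)
  -- the translates are ground states
  have hK : ∀ τ : ℝ, |τ| ≤ 1 → G.F.Kn (a + 1) ⊤ (fun x => f (x - τ)) := by
    intro τ hτ
    have hh := Hn_shift hf hτ
    rw [Z.Kn_iff ha1 hh]
    intro g hg
    have h1 : QQ (fun x => f (x - τ)) = 0 := by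
      rw [QQ_crit hRH]
      have : (fun ρ : Zt => (mu ρ : ℝ) * ‖TT (fun x => f (x - τ)) ((ρ : ℂ) - 1 / 2)‖ ^ 2) = fun _ => 0 := by
        funext ρ
        rw [TT_shift, hz ρ]; simp
      rw [this, tsum_zero]
    rw [h1, zero_mul]
    exact mul_nonneg (QQ_crit_nonneg hRH g) (N2_nonneg _)
  obtain ⟨e, N, hKe, hNe, -, -, -, hall⟩ := Z.structure_n (ν := ⊤) ha1
  obtain ⟨p0, -, hp0⟩ := (hall _ (Hn_shift hf (τ := 0) (by simp))).1 (hK 0 (by simp))
  obtain ⟨p1, -, hp1⟩ := (hall _ (Hn_shift hf (τ := 1) (by simp))).1 (hK 1 (by simp))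
  have hE : Differentiable ℂ (TT e) := differentiable_TT hKe.1.1
  have h0' : ∀ w, TT f w = p0.eval w * TT e w := by
    intro w
    have := hp0 w
    rw [TT_shift] at this
    simpa using this
  have h1' : ∀ w, Complex.exp w * TT f w = p1.eval w * TT e w := by
    intro w
    have := hp1 w
    rw [TT_shift] at this
    simpa using this
  -- the quotient of the two polynomials is the exponential
  have hD : ∀ w, Complex.exp w * p0.eval w - p1.eval w = 0 := by
    by_contra hcon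
    push Not at hcon
    obtain ⟨w0, hw0⟩ := hcon
    have hc : Continuous fun w : ℂ => Complex.exp w * p0.eval w - p1.eval w := by fun_prop
    have h2 : ∀ᶠ w in 𝓝 w0, Complex.exp w * p0.eval w - p1.eval w ≠ 0 := hc.continuousAt.eventually_ne hw0
    have h3 : TT e =ᶠ[𝓝 w0] 0 := by
      filter_upwards [h2] with w hw
      have h4 : (Complex.exp w * p0.eval w - p1.eval w) * TT e w = 0 := by
        rw [sub_mul, mul_assoc, ← h0', h1', sub_self]
      exact (mul_eq_zero.1 h4).resolve_left hw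
    have h4 : AnalyticOnNhd ℂ (TT e) Set.univ := fun z _ => hE.analyticAt z
    have h5 := h4.eqOn_zero_of_preconnected_of_eventuallyEq_zero isPreconnected_univ (Set.mem_univ w0) h3
    apply hNe
    have h6 := plancherel hKe.1.1
    have h7 : ∀ v : ℝ, ‖TT e (v * Complex.I)‖ ^ 2 = 0 := by
      intro v
      rw [h5 (Set.mem_univ _)]; simp
    simp only [h7, integral_zero] at h6
    have hpi := Real.pi_pos
    have h8 : 2 * Real.pi * N2 e = 0 := h6.symm
    rcases mul_eq_zero.1 h8 with h | h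
    · linarith
    · exact h
  -- so it is `0`
  have hinj : Function.Injective (fun k : ℕ => (k : ℂ) * (2 * Real.pi * Complex.I)) := by
    intro k l hkl
    have h2 : (2 * Real.pi * Complex.I : ℂ) ≠ 0 := Complex.two_pi_I_ne_zero
    have := mul_right_cancel₀ h2 hkl
    exact_mod_cast this
  have hp01 : p0 = p1 := by
    refine Polynomial.eq_of_infinite_eval_eq _ _ ?_
    refine Set.Infinite.mono ?_ (Set.infinite_range_of_injective hinj)
    rintro w ⟨k, rfl⟩
    have h2 := hD ((k : ℂ) * (2 * Real.pi * Complex.I))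
    rw [Complex.exp_nat_mul_two_pi_mul_I, one_mul] at h2
    exact sub_eq_zero.1 h2
  have hp : p0 = 0 := by
    refine Polynomial.eq_of_infinite_eval_eq _ _ ?_
    have hinj2 : Function.Injective (fun k : ℕ => (((k : ℝ) + 1 : ℝ) : ℂ)) := by
      intro k l hkl
      have h3 : ((k : ℝ) + 1 : ℝ) = (l : ℝ) + 1 := Complex.ofReal_injective hkl
      have h4 : (k : ℝ) = l := by linarith
      exact_mod_cast h4
    refine Set.Infinite.mono ?_ (Set.infinite_range_of_injective hinj2)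
    rintro w ⟨k, rfl⟩
    have h2 := hD ((((k : ℝ) + 1 : ℝ) : ℂ))
    rw [← hp01, ← sub_one_mul] at h2
    have h3 : Complex.exp ((((k : ℝ) + 1 : ℝ) : ℂ)) - 1 ≠ 0 := by
      rw [← Complex.ofReal_exp]
      intro h4
      have h5 : Real.exp ((k : ℝ) + 1) - 1 = 0 := by exact_mod_cast h4
      have h6 := Real.add_one_lt_exp (show (k : ℝ) + 1 ≠ 0 by positivity)
      have h7 : (0 : ℝ) ≤ k := Nat.cast_nonneg k
      linarith
    have h4 := (mul_eq_zero.1 h2).resolve_left h3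
    simpa using h4
  intro w
  rw [h0', hp, Polynomial.eval_zero, zero_mul]

end Pool.Agent.Q24.CD
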